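import Mathlib

/-!
# A finitely generated central algebra whose proper centralizers are commutative, not Noetherian

The algebra consists of the matrices `[[α + x u + y v, y v + x y w], [0, α]]` with `α ∈ K` and
`u, v, w ∈ K[x, y]`.
-/

set_option autoImplicit false
set_option linter.unusedSectionVars false
set_option linter.unusedVariables false

namespace Pool.Agent.X278.NC

universe u

variable {K R : Type u} [Field K] [CommRing R] [Algebra K R] (x y : R)

/-- the matrix with parameters `α, u, v, w` -/
def mk (α : K) (u v w : R) : Matrix (Fin 2) (Fin 2) R :=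
  !![algebraMap K R α + x * u + y * v, y * v + x * y * w; 0, algebraMap K R α]

lemma mk_mul (α β : K) (u v w u' v' w' : R) :
    mk x y α u v w * mk x y β u' v' w' =
      mk x y (α * β)
        (algebraMap K R α * u' + algebraMap K R β * u + (x * u + y * v) * u')
        (algebraMap K R α * v' + algebraMap K R β * v + (x * u + y * v) * v')
        ((algebraMap K R α + x * u + y * v) * w' + algebraMap K R β * w) := by
  unfold mk
  rw [Matrix.mul_fin_two]
  simp only [map_mul]
  ext i j
  fin_cases i <;> fin_cases j <;> simp <;> ring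

/-- the algebra -/
def Alg : Subalgebra K (Matrix (Fin 2) (Fin 2) R) where
  carrier := {M | ∃ (α : K) (u v w : R), M = mk x y α u v w}
  mul_mem' := by
    rintro _ _ ⟨α, u, v, w, rfl⟩ ⟨β, u', v', w', rfl⟩
    exact ⟨_, _, _, _, mk_mul x y α β u v w u' v' w'⟩
  add_mem' := by
    rintro _ _ ⟨α, u, v, w, rfl⟩ ⟨β, u', v', w', rfl⟩
    refine ⟨α + β, u + u', v + v', w + w', ?_⟩
    unfold mk
    ext i j
    fin_cases i <;> fin_cases j <;> simp <;> ring
  algebraMap_mem' := by
    intro r
    refine ⟨r, 0, 0, 0, ?_⟩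
    unfold mk
    ext i j
    fin_cases i <;> fin_cases j <;> simp [Matrix.algebraMap_matrix_apply]

lemma mk_mem (α : K) (u v w : R) : mk x y α u v w ∈ Alg (K := K) x y := ⟨α, u, v, w, rfl⟩

/-- the element with parameters `α, u, v, w` -/
def el (α : K) (u v w : R) : Alg (K := K) x y := ⟨mk x y α u v w, mk_mem x y α u v w⟩

lemma exists_el (a : Alg (K := K) x y) : ∃ α u v w, a = el x y α u v w := by
  obtain ⟨a, α, u, v, w, rfl⟩ := a
  exact ⟨α, u, v, w, rfl⟩

/-- `F` -/
def F (u v : R) : R := x * u + y * v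

/-- `G` -/
def G (v w : R) : R := y * v + x * y * w

lemma comm_iff (α β : K) (u v w u' v' w' : R) :
    el x y α u v w * el x y β u' v' w' = el x y β u' v' w' * el x y α u v w ↔
      F x y u v * G x y v' w' = F x y u' v' * G x y v w := by
  rw [Subtype.ext_iff, MulMemClass.coe_mul, MulMemClass.coe_mul]
  change mk x y α u v w * mk x y β u' v' w' = mk x y β u' v' w' * mk x y α u v w ↔ _
  unfold mk F G
  rw [Matrix.mul_fin_two, Matrix.mul_fin_two]
  constructor
  · intro h
    have h1 := congrFun (congrFun h 0) 1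
    simp at h1
    linear_combination h1
  · intro h
    ext i j
    fin_cases i <;> fin_cases j <;> simp
    · ring
    · linear_combination h
    · ring

/-- left ideals -/
lemma mem_adjoin_mul {S : Subalgebra K (Matrix (Fin 2) (Fin 2) R)}
    (hR : Algebra.adjoin K {x, y} = ⊤)
    (hX : mk x y (0 : K) 1 0 0 ∈ S) (hY : mk x y (0 : K) 0 1 0 ∈ S) (r f g : R)
    (h : !![f, g; 0, 0] ∈ S) : !![r * f, r * g; 0, 0] ∈ S := by
  have hr : r ∈ Algebra.adjoin K {x, y} := by rw [hR]; trivial
  induction hr using Algebra.adjoin_induction generalizing f g with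
  | mem z hz =>
    rcases hz with rfl | hz
    · have := S.mul_mem hX h
      convert this using 1
      unfold mk
      rw [Matrix.mul_fin_two]
      simp
    · rw [Set.mem_singleton_iff] at hz
      subst hz
      have := S.mul_mem hY h
      convert this using 1
      unfold mk
      rw [Matrix.mul_fin_two]
      simp
  | algebraMap r =>
    have := S.smul_mem h r
    convert this using 1
    ext i j
    fin_cases i <;> fin_cases j <;> simp [Algebra.smul_def]
  | add a b _ _ ha hb =>
    have := S.add_mem (ha f g h) (hb f g h)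
    convert this using 1
    ext i j
    fin_cases i <;> fin_cases j <;> simp <;> ring
  | mul a b _ _ ha hb =>
    have := ha _ _ (hb f g h)
    rw [mul_assoc, mul_assoc]
    exact this

lemma finType (hR : Algebra.adjoin K {x, y} = ⊤) : Algebra.FiniteType K (Alg (K := K) x y) := by
  classical
  rw [← Subalgebra.fg_iff_finiteType]
  refine ⟨{mk x y (0 : K) 1 0 0, mk x y (0 : K) 0 1 0}, le_antisymm ?_ ?_⟩
  · rw [Algebra.adjoin_le_iff]
    intro z hz
    simp only [Finset.coe_insert, Finset.coe_singleton, Set.mem_insert_iff,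
      Set.mem_singleton_iff] at hz
    rcases hz with rfl | rfl <;> exact mk_mem _ _ _ _ _ _
  · rintro _ ⟨α, u, v, w, rfl⟩
    set S := Algebra.adjoin K (((({mk x y (0 : K) 1 0 0, mk x y (0 : K) 0 1 0} :
      Finset (Matrix (Fin 2) (Fin 2) R)) : Set (Matrix (Fin 2) (Fin 2) R)))) with hS
    have hX : mk x y (0 : K) 1 0 0 ∈ S := Algebra.subset_adjoin (by simp)
    have hY : mk x y (0 : K) 0 1 0 ∈ S := Algebra.subset_adjoin (by simp)
    have eX : mk x y (0 : K) 1 0 0 = !![x, 0; 0, 0] := by simp [mk]
    have eY : mk x y (0 : K) 0 1 0 = !![y, y; 0, 0] := by simp [mk]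
    have h1 : !![x, 0; 0, 0] ∈ S := by rw [← eX]; exact hX
    have h2 : !![y, y; 0, 0] ∈ S := by rw [← eY]; exact hY
    have h3 : !![0, x * y; 0, 0] ∈ S := by
      have := S.sub_mem (S.mul_mem h1 h2) (S.mul_mem h2 h1)
      convert this using 1
      rw [Matrix.mul_fin_two, Matrix.mul_fin_two]
      ext i j
      fin_cases i <;> fin_cases j <;> simp
      ring
    have h4 := mem_adjoin_mul x y hR hX hY u _ _ h1
    have h5 := mem_adjoin_mul x y hR hX hY v _ _ h2
    have h6 := mem_adjoin_mul x y hR hX hY w _ _ h3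
    have h7 := S.add_mem (S.algebraMap_mem α) (S.add_mem h4 (S.add_mem h5 h6))
    convert h7 using 1
    unfold mk
    ext i j
    fin_cases i <;> fin_cases j <;> simp [Matrix.algebraMap_matrix_apply] <;> ring

lemma el_eq_algebraMap (α : K) (u v w : R) (h1 : F x y u v = 0) (h2 : G x y v w = 0) :
    el x y α u v w = algebraMap K (Alg (K := K) x y) α := by
  apply Subtype.ext
  change mk x y α u v w = algebraMap K (Matrix (Fin 2) (Fin 2) R) α
  unfold F at h1
  unfold G at h2
  unfold mk
  ext i j
  fin_cases i <;> fin_cases j <;> simp [Matrix.algebraMap_matrix_apply]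
  · linear_combination h1
  · linear_combination h2

variable [IsDomain R]

lemma center_iff (hx : x ≠ 0) (hy : y ≠ 0) (α : K) (u v w : R) :
    el x y α u v w ∈ Subalgebra.center K (Alg (K := K) x y) ↔
      F x y u v = 0 ∧ G x y v w = 0 := by
  constructor
  · intro h
    rw [Subalgebra.mem_center_iff] at h
    have h1 := (comm_iff x y _ _ _ _ _ _ _ _).1 (h (el x y 0 1 0 0))
    have h2 := (comm_iff x y _ _ _ _ _ _ _ _).1 (h (el x y 0 0 1 0))
    have e1 : F x y 1 0 = x := by simp [F]
    have e2 : G x y (0 : R) 0 = 0 := by simp [G]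
    have e3 : F x y 0 1 = y := by simp [F]
    have e4 : G x y (1 : R) 0 = y := by simp [G]
    rw [e1, e2, mul_zero] at h1
    rw [e3, e4] at h2
    have h3 : G x y v w = 0 := (mul_eq_zero.1 h1).resolve_left hx
    rw [h3, mul_zero] at h2
    exact ⟨(mul_eq_zero.1 h2.symm).resolve_right hy, h3⟩
  · rintro ⟨h1, h2⟩
    rw [el_eq_algebraMap x y α u v w h1 h2]
    exact Subalgebra.algebraMap_mem _ _

lemma center_eq_bot (hx : x ≠ 0) (hy : y ≠ 0) : Subalgebra.center K (Alg (K := K) x y) = ⊥ := by
  rw [eq_bot_iff]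
  intro a ha
  obtain ⟨α, u, v, w, rfl⟩ := exists_el x y a
  obtain ⟨h1, h2⟩ := (center_iff x y hx hy α u v w).1 ha
  rw [el_eq_algebraMap x y α u v w h1 h2]
  exact Subalgebra.algebraMap_mem _ _

lemma center_ne_top (hx : x ≠ 0) (hy : y ≠ 0) : Subalgebra.center K (Alg (K := K) x y) ≠ ⊤ := by
  intro h
  have h1 : el x y (0 : K) 1 0 0 ∈ Subalgebra.center K (Alg (K := K) x y) := by rw [h]; trivial
  obtain ⟨h2, _⟩ := (center_iff x y hx hy _ _ _ _).1 h1
  apply hx
  simpa [F] using h2

lemma mem_cent (α β : K) (u v w u' v' w' : R) :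
    el x y β u' v' w' ∈ Subalgebra.centralizer K {el x y α u v w} ↔
      F x y u v * G x y v' w' = F x y u' v' * G x y v w := by
  rw [Subalgebra.mem_centralizer_iff]
  constructor
  · intro h
    exact (comm_iff x y _ _ _ _ _ _ _ _).1 (h _ rfl)
  · rintro h _ rfl
    exact (comm_iff x y _ _ _ _ _ _ _ _).2 h

lemma cent_comm (hx : x ≠ 0) (hy : y ≠ 0) (a : Alg (K := K) x y)
    (ha : a ∉ Subalgebra.center K (Alg (K := K) x y))
    (b : Alg (K := K) x y) (hb : b ∈ Subalgebra.centralizer K {a})
    (c : Alg (K := K) x y) (hc : c ∈ Subalgebra.centralizer K {a}) : b * c = c * b := by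
  obtain ⟨α, u, v, w, rfl⟩ := exists_el x y a
  obtain ⟨β, u', v', w', rfl⟩ := exists_el x y b
  obtain ⟨γ, u'', v'', w'', rfl⟩ := exists_el x y c
  rw [mem_cent] at hb hc
  rw [center_iff x y hx hy] at ha
  rw [comm_iff]
  by_cases hF : F x y u v = 0
  · have hG : G x y v w ≠ 0 := fun h => ha ⟨hF, h⟩
    rw [hF, zero_mul] at hb hc
    rw [(mul_eq_zero.1 hb.symm).resolve_right hG, (mul_eq_zero.1 hc.symm).resolve_right hG]
    simp
  · apply mul_left_cancel₀ hF
    linear_combination F x y u' v' * hc - F x y u'' v'' * hb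

lemma exists_e [UniqueFactorizationMonoid R] (hx : Prime x) (hy : Prime y)
    (hxy : ∀ a b, x * a + y * b ≠ 1) (α : K) (u v w : R)
    (ha : ¬ (F x y u v = 0 ∧ G x y v w = 0)) :
    ∃ e : R, ¬ IsUnit e ∧ ∀ (u' v' w' : R),
      F x y u v * G x y v' w' = F x y u' v' * G x y v w → e ∣ F x y u' v' := by
  by_cases hF : F x y u v = 0
  · have hG : G x y v w ≠ 0 := fun h => ha ⟨hF, h⟩
    refine ⟨0, not_isUnit_zero, fun u' v' w' h => ?_⟩
    rw [hF, zero_mul] at h
    rw [(mul_eq_zero.1 h.symm).resolve_right hG]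
  · obtain ⟨f, g, d, hfg, h1, h2⟩ :=
      UniqueFactorizationMonoid.exists_reduced_factors (F x y u v) hF (G x y v w)
    have hd : d ≠ 0 := by
      rintro rfl
      rw [zero_mul] at h1
      exact hF h1.symm
    by_cases hf : IsUnit f
    · obtain ⟨f', hf'⟩ := hf.exists_right_inv
      -- `G = F t`
      set t := f' * g with ht
      have hG : G x y v w = F x y u v * t := by
        rw [← h1, ← h2, ht]
        linear_combination (-d * g) * hf'
      by_cases hxt : x ∣ t - 1
      · obtain ⟨s, hs⟩ := hxt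
        have hyt : ¬ y ∣ t := by
          rintro ⟨r, hr⟩
          apply hxy (-s) r
          linear_combination hs - hr
        refine ⟨y, hy.not_isUnit, fun u' v' w' h => ?_⟩
        rw [hG] at h
        have h3 : G x y v' w' = F x y u' v' * t := by
          apply mul_left_cancel₀ hF
          linear_combination h
        have h4 : y ∣ F x y u' v' * t := by
          rw [← h3]
          unfold G
          exact ⟨v' + x * w', by ring⟩
        exact (hy.dvd_or_dvd h4).resolve_right hyt
      · refine ⟨x, hx.not_isUnit, fun u' v' w' h => ?_⟩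
        rw [hG] at h
        have h3 : G x y v' w' = F x y u' v' * t := by
          apply mul_left_cancel₀ hF
          linear_combination h
        have h4 : x ∣ F x y u' v' * (t - 1) := by
          have : F x y u' v' * (t - 1) = G x y v' w' - F x y u' v' := by rw [h3]; ring
          rw [this]
          unfold G F
          exact ⟨y * w' - u', by ring⟩
        exact (hx.dvd_or_dvd h4).resolve_right hxt
    · refine ⟨f, hf, fun u' v' w' h => ?_⟩
      rw [← h1, ← h2] at h
      have h3 : f * G x y v' w' = F x y u' v' * g := by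
        apply mul_left_cancel₀ hd
        linear_combination h
      exact hfg.dvd_of_dvd_mul_right ⟨G x y v' w', h3.symm⟩

/-- the elements of the ideal -/
def io (u v w h : R) : Alg (K := K) x y := el x y 0 (h * y * F x y u v) 0 (h * G x y v w)

lemma io_add (u v w h h' : R) :
    io (K := K) x y u v w (h + h') = io x y u v w h + io x y u v w h' := by
  apply Subtype.ext
  change mk x y (0 : K) _ _ _ = mk x y (0 : K) _ _ _ + mk x y (0 : K) _ _ _
  unfold mk
  ext i j
  fin_cases i <;> fin_cases j <;> simp <;> ring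

lemma io_mul (u v w h : R) (β : K) (u' v' w' : R) :
    el x y β u' v' w' * io x y u v w h =
      io x y u v w ((algebraMap K R β + F x y u' v') * h) := by
  apply Subtype.ext
  change mk x y β u' v' w' * mk x y (0 : K) _ _ _ = mk x y (0 : K) _ _ _
  unfold mk
  rw [Matrix.mul_fin_two]
  unfold F G
  ext i j
  fin_cases i <;> fin_cases j <;> simp <;> ring

lemma io_inj (hx : x ≠ 0) (hy : y ≠ 0) (u v w h h' : R)
    (ha : ¬ (F x y u v = 0 ∧ G x y v w = 0))
    (e : io (K := K) x y u v w h = io x y u v w h') : h = h' := by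
  have e1 := congrArg Subtype.val e
  change mk x y (0 : K) _ _ _ = mk x y (0 : K) _ _ _ at e1
  unfold mk at e1
  have e2 : algebraMap K R 0 + x * (h * y * F x y u v) + y * 0 =
      algebraMap K R 0 + x * (h' * y * F x y u v) + y * 0 := congrFun (congrFun e1 0) 0
  have e3 : y * 0 + x * y * (h * G x y v w) = y * 0 + x * y * (h' * G x y v w) :=
    congrFun (congrFun e1 0) 1
  by_contra hne
  apply ha
  have hne' : h - h' ≠ 0 := sub_ne_zero.2 hne
  constructor
  · have h4 : x * y * (h - h') * F x y u v = 0 := by linear_combination e2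
    exact (mul_eq_zero.1 h4).resolve_left (mul_ne_zero (mul_ne_zero hx hy) hne')
  · have h4 : x * y * (h - h') * G x y v w = 0 := by linear_combination e3
    exact (mul_eq_zero.1 h4).resolve_left (mul_ne_zero (mul_ne_zero hx hy) hne')

lemma io_mem (α : K) (u v w h : R) :
    io x y u v w h ∈ Subalgebra.centralizer K {el x y α u v w} := by
  unfold io
  rw [mem_cent]
  unfold F G
  ring

/-- the centralizers are not Noetherian -/
lemma not_noetherian [UniqueFactorizationMonoid R] (hx : Prime x) (hy : Prime y)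
    (hxy : ∀ a b, x * a + y * b ≠ 1)
    (hR : ∀ e : R, ¬ IsUnit e → ∀ S : Set R, S.Finite →
      Submodule.span K S ⊔ (Ideal.span {e}).restrictScalars K ≠ ⊤)
    (a : Alg (K := K) x y) (ha : a ∉ Subalgebra.center K (Alg (K := K) x y)) :
    ¬ IsNoetherianRing (Subalgebra.centralizer K {a}) := by
  obtain ⟨α, u, v, w, rfl⟩ := exists_el x y a
  rw [center_iff x y hx.ne_zero hy.ne_zero] at ha
  obtain ⟨e, he, hdvd⟩ := exists_e (K := K) x y hx hy hxy α u v w ha
  intro hN
  set C := Subalgebra.centralizer K {el x y α u v w} with hC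
  have key : ∀ c : C, ∃ (β : K) (f : R), e ∣ f ∧ ∀ h : R,
      (c : Alg (K := K) x y) * io x y u v w h = io x y u v w ((algebraMap K R β + f) * h) := by
    rintro ⟨c, hc⟩
    obtain ⟨β, u', v', w', rfl⟩ := exists_el x y c
    rw [hC, mem_cent] at hc
    exact ⟨β, F x y u' v', hdvd u' v' w' hc, fun h => io_mul x y u v w h β u' v' w'⟩
  -- the submodule attached to a subspace which is stable under multiplication by `e`
  let J : ∀ T : Submodule K R, (∀ r : R, ∀ f, e ∣ f → f * r ∈ T) → Ideal C := fun T hT =>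
    { carrier := {c | ∃ h ∈ T, (c : Alg (K := K) x y) = io x y u v w h}
      add_mem' := by
        rintro c d ⟨h, hh, e1⟩ ⟨h', hh', e2⟩
        refine ⟨h + h', T.add_mem hh hh', ?_⟩
        rw [io_add, ← e1, ← e2]
        rfl
      zero_mem' := by
        refine ⟨0, T.zero_mem, ?_⟩
        apply Subtype.ext
        change (0 : Matrix (Fin 2) (Fin 2) R) = mk x y (0 : K) _ _ _
        unfold mk
        ext i j
        fin_cases i <;> fin_cases j <;> simp
      smul_mem' := by
        rintro c d ⟨h, hh, e1⟩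
        obtain ⟨β, f, hf, hk⟩ := key c
        refine ⟨(algebraMap K R β + f) * h, ?_, ?_⟩
        · rw [add_mul, ← Algebra.smul_def]
          exact T.add_mem (T.smul_mem β hh) (hT h f hf)
        · change ((c * d : C) : Alg (K := K) x y) = _
          rw [MulMemClass.coe_mul, e1, hk h] }
  have hJ : ∀ (T : Submodule K R) (hT : ∀ r : R, ∀ f, e ∣ f → f * r ∈ T) (c : C),
      c ∈ J T hT ↔ ∃ h ∈ T, (c : Alg (K := K) x y) = io x y u v w h := fun _ _ _ => Iff.rfl
  obtain ⟨S, hS⟩ := (isNoetherian_def.1 hN) (J ⊤ (fun _ _ _ => trivial))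
  have hS' : ∀ s : C, ∃ h : R, s ∈ S → (s : Alg (K := K) x y) = io x y u v w h := by
    intro s
    by_cases hs : s ∈ S
    · have : s ∈ J ⊤ (fun _ _ _ => trivial) := by
        rw [← hS]
        exact Submodule.subset_span hs
      obtain ⟨h, _, hh⟩ := (hJ ⊤ (fun _ _ _ => trivial) s).1 this
      exact ⟨h, fun _ => hh⟩
    · exact ⟨0, fun h => absurd h hs⟩
  choose hs hhs using hS'
  apply hR e he (hs '' (S : Set C)) (S.finite_toSet.image hs)
  set T := Submodule.span K (hs '' (S : Set C)) ⊔ (Ideal.span {e}).restrictScalars K with hTdef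
  have hT : ∀ r : R, ∀ f, e ∣ f → f * r ∈ T := by
    rintro r _ ⟨g, rfl⟩
    apply Submodule.mem_sup_right
    change e * g * r ∈ Ideal.span {e}
    rw [mul_assoc]
    exact Ideal.mul_mem_right _ _ (Ideal.mem_span_singleton_self e)
  have hle : J ⊤ (fun _ _ _ => trivial) ≤ J T hT := by
    rw [← hS, Submodule.span_le]
    intro s hs'
    exact (hJ T hT s).2 ⟨hs s, Submodule.mem_sup_left (Submodule.subset_span ⟨s, hs', rfl⟩),
      hhs s hs'⟩
  rw [eq_top_iff]
  intro r _
  have h1 : (⟨io x y u v w r, io_mem x y α u v w r⟩ : C) ∈ J T hT :=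
    hle ((hJ ⊤ (fun _ _ _ => trivial) _).2 ⟨r, trivial, rfl⟩)
  obtain ⟨h, hh, e1⟩ := (hJ T hT _).1 h1
  have h2 : r = h := io_inj x y hx.ne_zero hy.ne_zero u v w r h ha e1
  rw [h2]
  exact hh

end Pool.Agent.X278.NC
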