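import Pool.Agent.X278.NC.Basic

/-!
# The polynomial ring in two variables
-/

set_option autoImplicit false

open Polynomial

namespace Pool.Agent.X278.NC

universe u

variable (K : Type u) [Field K]

lemma adjoin_top : Algebra.adjoin K {(C X : K[X][X]), (X : K[X][X])} = ⊤ := by
  rw [eq_top_iff]
  rintro p -
  have hC : ∀ q : K[X], (C q : K[X][X]) ∈ Algebra.adjoin K {(C X : K[X][X]), (X : K[X][X])} := by
    intro q
    induction q using Polynomial.induction_on' with
    | add a b ha hb =>
      rw [map_add]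
      exact Subalgebra.add_mem _ ha hb
    | monomial n a =>
      rw [← C_mul_X_pow_eq_monomial, map_mul, map_pow]
      refine Subalgebra.mul_mem _ ?_ (Subalgebra.pow_mem _ (Algebra.subset_adjoin (by simp)) n)
      exact Subalgebra.algebraMap_mem _ a
  induction p using Polynomial.induction_on' with
  | add a b ha hb => exact Subalgebra.add_mem _ ha hb
  | monomial n a =>
    rw [← C_mul_X_pow_eq_monomial]
    exact Subalgebra.mul_mem _ (hC a)
      (Subalgebra.pow_mem _ (Algebra.subset_adjoin (by simp)) n)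

lemma not_finite_poly : ¬ Module.Finite K K[X] := by
  intro h
  have := Module.Finite.finite_basis (Polynomial.basisMonomials K)
  exact not_finite ℕ

lemma infinite_quot (e : K[X][X]) (he : ¬ IsUnit e) (S : Set K[X][X]) (hS : S.Finite) :
    Submodule.span K S ⊔ (Ideal.span {e}).restrictScalars K ≠ ⊤ := by
  intro htop
  have hfin : Module.Finite K (K[X][X] ⧸ Ideal.span {e}) := by
    let q : K[X][X] →ₗ[K] K[X][X] ⧸ Ideal.span {e} :=
      (Ideal.Quotient.mkₐ K (Ideal.span {e})).toLinearMap
    have hq : Function.Surjective q := Ideal.Quotient.mk_surjective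
    refine ⟨?_⟩
    have h1 : Submodule.map q (Submodule.span K S) = ⊤ := by
      rw [eq_top_iff]
      rintro z -
      obtain ⟨r, rfl⟩ := hq z
      have hr : r ∈ Submodule.span K S ⊔ (Ideal.span {e}).restrictScalars K := by
        rw [htop]; trivial
      obtain ⟨s, hs, t, ht, rfl⟩ := Submodule.mem_sup.1 hr
      refine ⟨s, hs, ?_⟩
      rw [map_add]
      have : q t = 0 := Ideal.Quotient.eq_zero_iff_mem.2 ht
      rw [this, add_zero]
    rw [← h1, Submodule.map_span]
    exact Submodule.fg_span (hS.image q)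
  by_cases hdeg : e.natDegree = 0 ∧ e ≠ 0
  · -- the powers of the second variable
    obtain ⟨h0, hne⟩ := hdeg
    obtain ⟨e0, rfl⟩ := Polynomial.natDegree_eq_zero.1 h0
    have he0 : ¬ IsUnit e0 := fun h => he (h.map C)
    let f : K[X] →ₗ[K] K[X][X] ⧸ Ideal.span {(C e0 : K[X][X])} :=
      (Ideal.Quotient.mkₐ K (Ideal.span {(C e0 : K[X][X])})).toLinearMap ∘ₗ
        (Polynomial.mapAlgHom (Algebra.ofId K K[X])).toLinearMap
    apply not_finite_poly K
    refine Module.Finite.of_injective f ?_
    rw [injective_iff_map_eq_zero]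
    intro p hp
    have h1 : p.map (algebraMap K K[X]) ∈ Ideal.span {(C e0 : K[X][X])} :=
      Ideal.Quotient.eq_zero_iff_mem.1 hp
    rw [Ideal.mem_span_singleton] at h1
    obtain ⟨g, hg⟩ := h1
    ext n
    by_contra hpn
    rw [coeff_zero] at hpn
    apply he0
    have h2 := congrArg (fun z => z.coeff n) hg
    simp only [coeff_map, coeff_C_mul] at h2
    have h3 : IsUnit (algebraMap K K[X] (p.coeff n)) := (IsUnit.mk0 _ hpn).map _
    rw [h2] at h3
    exact isUnit_of_mul_isUnit_left h3
  · -- the powers of the first variable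
    let f : K[X] →ₗ[K] K[X][X] ⧸ Ideal.span {e} :=
      (Ideal.Quotient.mkₐ K (Ideal.span {e})).toLinearMap ∘ₗ
        (Polynomial.CAlgHom (R := K) (A := K[X])).toLinearMap
    apply not_finite_poly K
    refine Module.Finite.of_injective f ?_
    rw [injective_iff_map_eq_zero]
    intro p hp
    have h1 : (C p : K[X][X]) ∈ Ideal.span {e} := Ideal.Quotient.eq_zero_iff_mem.1 hp
    rw [Ideal.mem_span_singleton] at h1
    obtain ⟨g, hg⟩ := h1
    by_contra hp0
    have hC : (C p : K[X][X]) ≠ 0 := by simpa using hp0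
    have he0 : e ≠ 0 := by
      rintro rfl
      rw [zero_mul] at hg
      exact hC hg
    have hg0 : g ≠ 0 := by
      rintro rfl
      rw [mul_zero] at hg
      exact hC hg
    have h2 := congrArg natDegree hg
    rw [natDegree_C, natDegree_mul he0 hg0] at h2
    exact hdeg ⟨by omega, he0⟩

lemma coprime_vars (a b : K[X][X]) : (C X : K[X][X]) * a + X * b ≠ 1 := by
  intro h
  have := congrArg (fun p : K[X][X] => (p.eval 0).eval 0) h
  simp at this

/-- The final statement. -/
theorem main : ∃ (A : Type u) (_ : Ring A) (_ : Algebra K A),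
    Algebra.FiniteType K A ∧ Subalgebra.center K A = ⊥ ∧ Subalgebra.center K A ≠ ⊤ ∧
    ∀ a : A, a ∉ Subalgebra.center K A →
      (∀ b ∈ Subalgebra.centralizer K {a}, ∀ c ∈ Subalgebra.centralizer K {a}, b * c = c * b) ∧
      ¬ IsNoetherianRing (Subalgebra.centralizer K {a}) := by
  have hx : Prime (C X : K[X][X]) := Polynomial.prime_C_iff.2 Polynomial.prime_X
  have hy : Prime (X : K[X][X]) := Polynomial.prime_X
  refine ⟨Alg (K := K) (C X : K[X][X]) X, inferInstance, inferInstance,
    finType _ _ (adjoin_top K), center_eq_bot _ _ hx.ne_zero hy.ne_zero,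
    center_ne_top _ _ hx.ne_zero hy.ne_zero, fun a ha => ⟨fun b hb c hc =>
      cent_comm _ _ hx.ne_zero hy.ne_zero a ha b hb c hc, ?_⟩⟩
  exact not_noetherian _ _ hx hy (coprime_vars K) (infinite_quot K) a ha

end Pool.Agent.X278.NC
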